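import Mathlib
import Pool.Agent.V1156.RV.Rel
import Pool.Agent.V1156.RV.Opt

/-!
# Rémond's inequality at points `α` of `G_m` for which the norm of `α ^ r - 1` is large

Let `K` be any field of complex numbers, `Γ` any group of nonzero complex numbers and `r ≥ 1` an
integer. Let `α` be an algebraic integer, `d` its degree over the field `K(Γ)`, `h(α)` its height,
and let

  `ℓ = log |N(α ^ r - 1)| / n`, `n = [ℚ(α) : ℚ]`, `N` the norm from `ℚ(α)` to `ℚ`,

be the normalized logarithm of the norm of `α ^ r - 1`, `α ^ r ≠ 1`. There is a constant `C ≥ 1` that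
depends on `r` only (not on `K`, `Γ`, `α`), with

* if `ℓ ≥ C (1 + log d) / √d`, then `h(α) ≥ (1 / C) min (1, ℓ ^ 2 / (1 + log d))`;
* **Rémond's inequality** `d h(α) ≥ 1` holds as soon as `ℓ ≥ C (1 + log d) ^ (3/4) / √d`, `α` is not a
  root of unity (`h(α) > 0`), and no quotient of two distinct conjugates of `α` over `K(Γ)` is a root
  of unity.

(The first part gives `h(α) ≥ min (1 / C, C (1 + log d) / d)`, and for fixed `ℓ > 0` a lower bound
of the order `1 / (1 + log d)`. The trivial upper bound is `ℓ ≤ log 2 + r h(α)`.) In the terms of Rémond's question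
this is the case `G = G_m`, `V = {α}`: the obstruction index of `V` over `K(Γ)` is `d`, and the
essential minimum is `h(α)`.

Method: let `L` be the Galois closure of `ℚ(α)`. For every embedding of `L` the energy inequality
is applied to the images of the powers `z ^ j`, `j ≤ k`, of the conjugates `z` of `α` over `K(Γ)` and
to `w` charges on a small circle around each `r`-th root of unity; the radius of the circle depends
on the embedding. The self-energies of the conjugates have nonnegative sum over the embeddings,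
since differences of algebraic integers have norm at least `1`, and `z ^ r - 1` divides
`z ^ (j r) - 1`. One takes `k` of order `√(1 + log d)` and `w` of order `√(d k)`.
-/

set_option autoImplicit false

open Polynomial

namespace Pool.Agent.Results.MP_187c26_nt.LargeNorms

/-- The absolute logarithmic Weil height of an algebraic integer. -/
noncomputable def height (α : ℂ) : ℝ :=
  Real.log ((minpoly ℤ α).map (Int.castRingHom ℂ)).mahlerMeasure / (minpoly ℤ α).natDegree

/-- The absolute value of the norm of `α ^ r - 1` from `ℚ(α)` to `ℚ`: the product of `|y ^ r - 1|`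
over the conjugates `y` of the algebraic integer `α` over `ℚ`. -/
noncomputable def absNorm (α : ℂ) (r : ℕ) : ℝ :=
  (((minpoly ℤ α).map (Int.castRingHom ℂ)).roots.map fun y => ‖y ^ r - 1‖).prod

/-- The field `K(Γ)` generated over `K` by the elements of `Γ`. -/
noncomputable def pointField (K : IntermediateField ℚ ℂ) (Γ : Subgroup ℂˣ) :
    IntermediateField ℚ ℂ :=
  K ⊔ IntermediateField.adjoin ℚ {z : ℂ | ∃ g ∈ Γ, (g : ℂ) = z}

/-- No quotient of two distinct conjugates of `α` over `F` is a root of unity. -/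
def PowersDistinct (F : IntermediateField ℚ ℂ) (α : ℂ) : Prop :=
  ∀ z ∈ (minpoly F α).rootSet ℂ, ∀ z' ∈ (minpoly F α).rootSet ℂ, z ≠ z' →
    ∀ j : ℕ, 1 ≤ j → z ^ j ≠ z' ^ j

/-- **Rémond's inequality from large norms**, for every field `K(Γ)`. -/
theorem result (r : ℕ) (hr : 1 ≤ r) :
    ∃ C : ℝ, 1 ≤ C ∧ ∀ (K : IntermediateField ℚ ℂ) (Γ : Subgroup ℂˣ) (α : ℂ), IsIntegral ℤ α →
      α ^ r ≠ 1 → ∀ d : ℕ, d = (minpoly (pointField K Γ) α).natDegree →
      ∀ ℓ : ℝ, ℓ = Real.log (absNorm α r) / (minpoly ℤ α).natDegree →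
        (C * (1 + Real.log d) / Real.sqrt d ≤ ℓ →
          (1 / C) * min 1 (ℓ ^ 2 / (1 + Real.log d)) ≤ height α) ∧
        (0 < height α → PowersDistinct (pointField K Γ) α →
          C * (1 + Real.log d) ^ (3 / 4 : ℝ) / Real.sqrt d ≤ ℓ → 1 ≤ d * height α) := by
  obtain ⟨A, hA, hmain⟩ := Pool.Agent.V1156.RV.rel_large r (by omega)
  have hCA : 1 ≤ 16 * A ^ 2 := by nlinarith
  refine ⟨16 * A ^ 2, hCA, fun K Γ α hα hαr d hd ℓ hℓ => ?_⟩
  set F := pointField K Γ with hF
  have hαF : IsIntegral F α := hα.tower_top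
  have hd0 : 0 < d := by
    rw [hd]
    exact minpoly.natDegree_pos hαF
  have hd1 : (1:ℝ) ≤ d := by exact_mod_cast hd0
  have hln : 0 ≤ Real.log d := Real.log_nonneg hd1
  have hs1 : 1 ≤ Real.sqrt d := Real.one_le_sqrt.mpr hd1
  have hs2 : Real.sqrt d ^ 2 = d := Real.sq_sqrt (by linarith)
  have H := hmain F hα
  rw [← hd] at H
  have hℓ' : Real.log (Pool.Agent.V1156.RV.absN (minpoly ℤ α) r) / (minpoly ℤ α).natDegree = ℓ :=
    hℓ.symm
  rw [hℓ'] at H
  refine ⟨fun h1 => ?_, fun hpos hnd h1 => ?_⟩
  · have hℓ0 : 0 < ℓ := lt_of_lt_of_le (by positivity) h1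
    rw [div_le_iff₀ (by positivity)] at h1
    have hopt := Pool.Agent.V1156.DL.opt_one (A := A) (ℓ := d * ℓ) (h := height α) hA hd0 rfl
      (by
        have h2 : 4 * A * (1 + Real.log d) ≤ ℓ * Real.sqrt d := by
          refine le_trans ?_ h1
          exact mul_le_mul_of_nonneg_right (by nlinarith) (by linarith)
        have h3 := mul_le_mul_of_nonneg_left h2 (by linarith : 0 ≤ Real.sqrt d)
        calc 4 * A * (Real.sqrt d * (1 + Real.log d)) =
            Real.sqrt d * (4 * A * (1 + Real.log d)) := by ring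
          _ ≤ Real.sqrt d * (ℓ * Real.sqrt d) := h3
          _ = Real.sqrt d ^ 2 * ℓ := by ring
          _ = d * ℓ := by rw [hs2])
      (by
        intro w hw1 hw2
        have h4 := H 1 w le_rfl (Or.inl rfl) hαr hw1 (by omega)
        simp only [Nat.cast_one, mul_one, one_mul, one_pow] at h4
        exact h4)
    have e1 : (d * ℓ) ^ 2 / ((d : ℝ) ^ 2 * (1 + Real.log d)) = ℓ ^ 2 / (1 + Real.log d) := by
      have : (d : ℝ) ≠ 0 := by linarith
      have : (1 + Real.log d) ≠ 0 := by linarith
      field_simp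
    rw [e1] at hopt
    exact hopt
  · rw [div_le_iff₀ (by positivity)] at h1
    have hopt := Pool.Agent.V1156.RV.opt_three (A := A) (ℓ := ℓ) (h := height α) hA hd0 rfl
      (by
        have h2 : 14 * A * (1 + Real.log d) ^ (3 / 4 : ℝ) ≤
            16 * A ^ 2 * (1 + Real.log d) ^ (3 / 4 : ℝ) :=
          mul_le_mul_of_nonneg_right (by nlinarith) (by positivity)
        linarith) hpos.le
      (fun k w hk hw1 hw2 => H k w hk (Or.inr ⟨hpos, hnd⟩) hαr hw1 hw2)
    rwa [div_le_iff₀ (by positivity), mul_comm] at hopt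

end Pool.Agent.Results.MP_187c26_nt.LargeNorms
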