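import Mathlib
import Pool.Agent.V1156.RK.Mer

/-!
# The relative Lehmer problem over `K(μ_∞)`: algebraic units which are linearly dependent

Let `K` be a number field, `μ_∞` the group of all roots of unity and `E = K(μ_∞)`. There is an
absolute constant `c > 0` with the following properties. Put `B(k) = ([K : ℚ] k ^ 2 (1 + log k)) ^ 7`.

* Let `S` be a set of `k` algebraic units, no quotient of two distinct members of `S` being a root of
  unity. If `S` is linearly dependent over `E`, then `h(x / y) ≥ c / B(k)` for some `x ≠ y` in `S`.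
* So if `α` is an algebraic unit and each member of `S` is a product of at most `Δ` conjugates of `α`
  over `ℚ` and inverses of such conjugates, then `Δ h(α) ≥ c / B(k)`.
* Let the point `x` of `𝔾_m ^ n`, with units as coordinates, lie on a hypersurface `f = 0`, where `f` has
  coefficients in `E` and `k` nonzero terms, but on no torsion coset contained in this hypersurface. Then
  `∑ deg_j(f) h(x_j) ≥ c / B(k)`.
* If the unit `α` is not a root of unity and its minimal polynomial over `E` has `k` nonzero
  coefficients, then `[E(α) : E] h(α) ≥ c / B(k)`.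

Nothing is assumed on the coefficients of the relations, or of `f`; they may have any size and any
degree over `ℚ`. In the terms of Rémond's question this is the case `G = 𝔾_m ^ n`, `Γ` = the torsion
group, `V` a point; the obstruction index of a point on a hypersurface over `E` is at most a constant
times the sum of the `deg_j(f)`. The last statement is Rémond's inequality for the `α` whose minimal
polynomial over `E` has a bounded number of terms.

Method. If all quotients of two distinct members of `S` have degree at least `N` over `E`, with `N` of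
order `k ^ 2 (1 + log k)`, then the Gram matrix of the normalized conjugates over `E` of the members
of `S` is nearly the identity on the average over the embeddings, by an energy inequality, and the
relation shows that some quotient has height at least `1 / (40 k ^ 2)`. If some quotient has degree
less than `N` over `E`, its height is at least `c / ([K : ℚ] N) ^ 7`; this follows from the starting
hand-in `RelativeLehmer`, as the mean of `log⁺ |f|` over the conjugates of a polynomial `f` is at most
the degree times `log 2 + h`. For a point on a hypersurface the terms whose quotients are torsion are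
merged; if all terms cancel then `f` vanishes on a torsion coset through the point.
-/

set_option autoImplicit false

open Polynomial Module

namespace Pool.Agent.Results.MP_187c26_nt.RelativeFewTerms

/-- the field `ℚ(μ_∞) ⊆ ℂ` generated by all roots of unity -/
noncomputable def QAb : IntermediateField ℚ ℂ :=
  IntermediateField.adjoin ℚ {z : ℂ | ∃ n : ℕ, 0 < n ∧ z ^ n = 1}

/-- The absolute logarithmic Weil height of an algebraic integer. -/
noncomputable def height (α : ℂ) : ℝ :=
  Real.log ((minpoly ℤ α).map (Int.castRingHom ℂ)).mahlerMeasure / (minpoly ℤ α).natDegree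

/-- `α` is an algebraic unit: an algebraic integer of norm `± 1`. -/
def IsAlgebraicUnit (α : ℂ) : Prop := IsIntegral ℤ α ∧ |(minpoly ℤ α).coeff 0| = 1

/-- The conjugates of the algebraic integer `α` over `ℚ`. -/
def IsConjugate (α z : ℂ) : Prop := aeval z (minpoly ℤ α) = 0

/-- Every `x` in `S` is a product of at most `Δ` conjugates of `α` over `ℚ`, and inverses of
conjugates. -/
def Monomials (α : ℂ) (S : Finset ℂ) (Δ : ℕ) : Prop :=
  ∀ x ∈ S, ∃ l : List ℂ, l.length ≤ Δ ∧ (∀ z ∈ l, IsConjugate α z ∨ IsConjugate α z⁻¹) ∧
    x = l.prod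

/-- No quotient of two distinct elements of `S` is a root of unity. -/
def QuotientsNotTorsion (S : Finset ℂ) : Prop :=
  ∀ x ∈ S, ∀ y ∈ S, x ≠ y → ∀ m : ℕ, 0 < m → x ^ m ≠ y ^ m

/-- The polynomial `f` vanishes at all points `y` of `𝔾_m ^ n` which satisfy all the equations
`y ^ m = ζ y ^ m'`, with monomials `m`, `m'` of `f` and a root of unity `ζ`, that `x` satisfies: the
torsion coset (or finite union of torsion cosets) through `x` given by these equations is contained in
the hypersurface `f = 0`. -/
def OnTorsionCosetIn {E : IntermediateField ℚ ℂ} {n : ℕ} (f : MvPolynomial (Fin n) E)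
    (x : Fin n → ℂ) : Prop :=
  ∀ y : Fin n → ℂ, (∀ j, y j ≠ 0) → (∀ m ∈ f.support, ∀ m' ∈ f.support, ∀ ζ : ℂ,
    (∃ r : ℕ, 0 < r ∧ ζ ^ r = 1) → ∏ j, x j ^ m j = ζ * ∏ j, x j ^ m' j →
      ∏ j, y j ^ m j = ζ * ∏ j, y j ^ m' j) → MvPolynomial.aeval y f = 0

/-- the number `([K : ℚ] k ^ 2 (1 + log k)) ^ 7` -/
noncomputable def bound (K : IntermediateField ℚ ℂ) (k : ℕ) : ℝ :=
  ((finrank ℚ K : ℝ) * ((k : ℝ) ^ 2 * (1 + Real.log k))) ^ 7

lemma unit_data {x : ℂ} (hx : IsAlgebraicUnit x) : x ≠ 0 ∧ IsIntegral ℤ x ∧ IsIntegral ℤ x⁻¹ := by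
  have h1 := Pool.Agent.V1156.RK.hgt_monomial (minpoly.irreducible hx.1) (minpoly.monic hx.1) hx.2
    [x⁻¹] (by
      intro z hz
      rw [List.mem_singleton] at hz
      subst hz
      right
      rw [inv_inv]
      exact minpoly.aeval ℤ x)
  rw [List.prod_singleton] at h1
  refine ⟨?_, hx.1, h1.1⟩
  intro h0
  exact h1.2.1 (by rw [h0, inv_zero])

lemma bound_nonneg (K : IntermediateField ℚ ℂ) (k : ℕ) : 0 ≤ bound K k := by
  unfold bound
  have : 0 ≤ Real.log (k : ℝ) := Real.log_natCast_nonneg k
  positivity

theorem result : ∃ c : ℝ, 0 < c ∧ ∀ (K : IntermediateField ℚ ℂ) [FiniteDimensional ℚ K],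
      (∀ S : Finset ℂ, (∀ x ∈ S, IsAlgebraicUnit x) → QuotientsNotTorsion S →
        ¬ LinearIndependent (K ⊔ QAb : IntermediateField ℚ ℂ) (fun x : S => (x : ℂ)) →
          ∃ x ∈ S, ∃ y ∈ S, x ≠ y ∧ c / bound K S.card ≤ height (x / y)) ∧
      (∀ α : ℂ, IsAlgebraicUnit α → ∀ (S : Finset ℂ) (Δ : ℕ), Monomials α S Δ →
        QuotientsNotTorsion S →
        ¬ LinearIndependent (K ⊔ QAb : IntermediateField ℚ ℂ) (fun x : S => (x : ℂ)) →
          c / bound K S.card ≤ Δ * height α) ∧
      (∀ (n : ℕ) (x : Fin n → ℂ), (∀ j, IsAlgebraicUnit (x j)) →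
        ∀ f : MvPolynomial (Fin n) (K ⊔ QAb : IntermediateField ℚ ℂ),
        MvPolynomial.aeval x f = 0 → ¬ OnTorsionCosetIn f x →
          c / bound K f.support.card ≤ ∑ j, (f.degreeOf j : ℝ) * height (x j)) ∧
      (∀ α : ℂ, IsAlgebraicUnit α → (∀ n : ℕ, 0 < n → α ^ n ≠ 1) →
        c / bound K (minpoly (K ⊔ QAb : IntermediateField ℚ ℂ) α).support.card ≤
          (minpoly (K ⊔ QAb : IntermediateField ℚ ℂ) α).natDegree * height α) := by
  classical
  obtain ⟨c1, hc1, h⟩ := Pool.Agent.V1156.RK.few
  obtain ⟨c2', hc2', hu⟩ := Pool.Agent.V1156.RK.uni_few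
  obtain ⟨c3, hc3, hy3⟩ := Pool.Agent.V1156.RK.hyp_few
  set c2 : ℝ := min c2' c3 with hc2
  refine ⟨min c1 c2, lt_min hc1 (lt_min hc2' hc3), ?_⟩
  intro K _
  have first : ∀ S : Finset ℂ, (∀ x ∈ S, IsAlgebraicUnit x) → QuotientsNotTorsion S →
      ¬ LinearIndependent (K ⊔ QAb : IntermediateField ℚ ℂ) (fun x : S => (x : ℂ)) →
        ∃ x ∈ S, ∃ y ∈ S, x ≠ y ∧ min c1 c2 / bound K S.card ≤ height (x / y) := by
    intro S hS htor hdep
    rw [linearIndependent_iff_card_le_finrank_span, not_le] at hdep
    have h5 : Set.range (fun z : S => (z : ℂ)) = (S : Set ℂ) := by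
      ext z
      simp
    rw [h5, Fintype.card_coe] at hdep
    obtain ⟨x, hx, y, hy, hxy, hh⟩ := hu K S (fun x hx => unit_data (hS x hx)) htor hdep
    refine ⟨x, hx, y, hy, hxy, le_trans ?_ hh⟩
    exact div_le_div_of_nonneg_right ((min_le_right _ _).trans (min_le_left _ _))
      (bound_nonneg K S.card)
  refine ⟨first, ?_, ?_, ?_⟩
  · intro α hα S Δ hS htor hdep
    rw [linearIndependent_iff_card_le_finrank_span, not_le] at hdep
    have h5 : Set.range (fun z : S => (z : ℂ)) = (S : Set ℂ) := by
      ext z
      simp
    rw [h5, Fintype.card_coe] at hdep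
    refine le_trans ?_ (h K (minpoly ℤ α) (minpoly.irreducible hα.1) (minpoly.monic hα.1) hα.2 S Δ hS
      htor hdep)
    exact div_le_div_of_nonneg_right (min_le_left _ _) (bound_nonneg K S.card)
  · intro n x hx f hfx htor
    have hx' : ∀ j, x j ≠ 0 ∧ IsIntegral ℤ (x j) ∧ IsIntegral ℤ (x j)⁻¹ := fun j => unit_data (hx j)
    unfold OnTorsionCosetIn at htor
    push Not at htor
    obtain ⟨y, -, hy, hfy⟩ := htor
    refine le_trans ?_ (hy3 K n x hx' f hfx y hy hfy)
    exact div_le_div_of_nonneg_right ((min_le_right _ _).trans (min_le_right _ _))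
      (bound_nonneg K f.support.card)
  intro α hα htor0
  have hp := minpoly.irreducible hα.1
  have hm := minpoly.monic hα.1
  have hα0 : α ≠ 0 := (unit_data hα).1
  have hpoly : (∀ n : ℕ, 0 < n → α ^ n ≠ 1) →
      ∀ f : (K ⊔ QAb : IntermediateField ℚ ℂ)[X], f ≠ 0 → aeval α f = 0 →
        c1 / bound K f.support.card ≤ f.natDegree * height α := by
    intro htor f hf hfα
    have hinj : ∀ i j : ℕ, α ^ i = α ^ j → i = j := by
      have key : ∀ i j : ℕ, i < j → α ^ i ≠ α ^ j := by
        intro i j hij he
        apply htor (j - i) (by omega)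
        have h2 : α ^ i * α ^ (j - i) = α ^ i * 1 := by
          rw [← pow_add, mul_one, he]
          congr 1
          omega
        exact mul_left_cancel₀ (pow_ne_zero i hα0) h2
      intro i j he
      rcases lt_trichotomy i j with h1 | h1 | h1
      · exact absurd he (key i j h1)
      · exact h1
      · exact absurd he.symm (key j i h1)
    set S : Finset ℂ := f.support.image (fun j => α ^ j) with hS
    have hcard : S.card = f.support.card :=
      Finset.card_image_of_injective _ (fun i j he => hinj i j he)
    rw [← hcard]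
    refine h K (minpoly ℤ α) hp hm hα.2 S f.natDegree ?_ ?_ ?_
    · intro x hx
      obtain ⟨j, hj, rfl⟩ := Finset.mem_image.mp hx
      refine ⟨List.replicate j α, ?_, ?_, by simp⟩
      · rw [List.length_replicate]
        exact le_natDegree_of_mem_supp j hj
      · intro z hz
        rw [List.eq_of_mem_replicate hz]
        exact Or.inl (minpoly.aeval ℤ α)
    · intro x hx y hy hxy m hm0 he
      obtain ⟨i, -, rfl⟩ := Finset.mem_image.mp hx
      obtain ⟨j, -, rfl⟩ := Finset.mem_image.mp hy
      rw [← pow_mul, ← pow_mul] at he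
      have h2 := hinj _ _ he
      have h3 : i = j := Nat.eq_of_mul_eq_mul_right hm0 h2
      exact hxy (by rw [h3])
    · have hdep : ¬ LinearIndependent (K ⊔ QAb : IntermediateField ℚ ℂ)
          (fun j : f.support => α ^ (j : ℕ)) := by
        rw [Fintype.linearIndependent_iff]
        intro hli
        obtain ⟨j, hj⟩ := Polynomial.support_nonempty.mpr hf
        have h2 := hli (fun i => f.coeff i) (by
          have h3 : ∑ i : f.support, f.coeff (i : ℕ) • α ^ (i : ℕ) =
              ∑ i ∈ f.support, f.coeff i • α ^ i :=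
            Finset.sum_coe_sort f.support (fun i => f.coeff i • α ^ i)
          rw [h3, ← hfα, Polynomial.aeval_eq_sum_range]
          refine Finset.sum_subset ?_ ?_
          · intro i hi
            rw [Finset.mem_range]
            exact Nat.lt_succ_of_le (le_natDegree_of_mem_supp i hi)
          · intro i _ hi
            rw [Polynomial.notMem_support_iff.mp hi, zero_smul]) ⟨j, hj⟩
        exact (Polynomial.mem_support_iff.mp hj) h2
      rw [linearIndependent_iff_card_le_finrank_span, not_le] at hdep
      have h5 : Set.range (fun j : f.support => α ^ (j : ℕ)) = (S : Set ℂ) := by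
        ext z
        rw [hS, Finset.coe_image, Set.mem_image, Set.mem_range]
        constructor
        · rintro ⟨j, rfl⟩
          exact ⟨j, j.2, rfl⟩
        · rintro ⟨j, hj, rfl⟩
          exact ⟨⟨j, hj⟩, rfl⟩
      rw [h5, Fintype.card_coe, ← hcard] at hdep
      exact hdep
  refine le_trans ?_ (hpoly htor0 _ (minpoly.ne_zero hα.1.tower_top) (minpoly.aeval _ α))
  exact div_le_div_of_nonneg_right (min_le_left _ _) (bound_nonneg K _)

end Pool.Agent.Results.MP_187c26_nt.RelativeFewTerms
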