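import Mathlib
import Pool.Agent.V1156.RK.FewMs

/-!
# The relative Lehmer problem over `K(μ_∞)` for units with linear forms of large norm

Let `K` be a number field, `μ_∞` the group of all roots of unity and `E = K(μ_∞)`. There is an
absolute constant `c > 0` with the following properties, for all algebraic units `α`, all Galois
number fields `L` which contain the conjugates of `α` and all `0 < ε ≤ 1`.

* Let `S` be a set of `k` numbers, each of them a product of at most `Δ` conjugates of `α` over `ℚ` and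
  inverses of such conjugates, no quotient of two distinct members of `S` being a root of unity. Let
  `β = ∑ a_x x` be a nonzero linear combination of the members of `S`, with coefficients in `E ∩ L`. If
  the geometric mean of `|σ β| ^ 2 / ∑ |σ a_x| ^ 2`, over all embeddings `σ` of `L` in `ℂ`, is at
  least `1 + ε`, then `Δ h(α) ≥ c / ([K : ℚ] κ ^ 2 (1 + log κ)) ^ 7`, `κ = k / ε`.
* Let `α` be not a root of unity and `f` a polynomial with coefficients in `E ∩ L`, with `k` nonzero
  coefficients, `f(α) ≠ 0`. If the geometric mean of `|σ f(α)| ^ 2 / ∑ |σ f_i| ^ 2` is at least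
  `1 + ε`, then `deg(f) h(α) ≥ c / ([K : ℚ] κ ^ 2 (1 + log κ)) ^ 7`, `κ = k / ε`.

Nothing is assumed on the coefficients; they may have any size and any degree over `ℚ`. In other
words: if the height of `α` is small then the norm of `f(α)` is at most about the norm of the
Euclidean length of the coefficients of `f`; the trivial bound is by their sum. In the terms of
Rémond's question this is the case `G = 𝔾_m`, `Γ` = the group of roots of unity, `V = {α}`. If
`deg(f)`, `k` and `[K : ℚ]` are bounded, or if `deg(f)` is at most a constant times `[E(α) : E]`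
and `k`, `[K : ℚ]` are bounded, it is Rémond's inequality for `α`.

Method. If all quotients of two distinct members of `S` have degree at least `N` over `E`, with `N` of
order `κ ^ 2 (1 + log κ)`, then for all embeddings `σ` of `L` the points `(σ(ρ(x)))_x`, `ρ` in the
Galois group over `E ∩ L`, are spread out so well that the mean square of every linear form at the
normalized points is about the sum of the squares of its coefficients, on the average over `σ`, by an
energy inequality; the geometric mean is at most the mean. If some quotient has degree less than `N`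
over `E`, its height is at least `c / ([K : ℚ] N) ^ 7`; this follows from the starting hand-in
`RelativeLehmer`.
-/

set_option autoImplicit false

open Polynomial Module

namespace Pool.Agent.Results.MP_187c26_nt.RelativeLargeForms

/-- the field `ℚ(μ_∞) ⊆ ℂ` generated by all roots of unity -/
noncomputable def QAb : IntermediateField ℚ ℂ :=
  IntermediateField.adjoin ℚ {z : ℂ | ∃ n : ℕ, 0 < n ∧ z ^ n = 1}

/-- The absolute logarithmic Weil height of an algebraic integer. -/
noncomputable def height (α : ℂ) : ℝ :=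
  Real.log ((minpoly ℤ α).map (Int.castRingHom ℂ)).mahlerMeasure / (minpoly ℤ α).natDegree

/-- `α` is an algebraic unit: an algebraic integer of norm `± 1`. -/
def IsAlgebraicUnit (α : ℂ) : Prop := IsIntegral ℤ α ∧ |(minpoly ℤ α).coeff 0| = 1

/-- The conjugates of the algebraic integer `α` over `ℚ`. -/
def IsConjugate (α z : ℂ) : Prop := aeval z (minpoly ℤ α) = 0

/-- Every `x` in `S` is a product of at most `Δ` conjugates of `α` over `ℚ`, and inverses of
conjugates. -/
def Monomials (α : ℂ) (S : Finset ℂ) (Δ : ℕ) : Prop :=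
  ∀ x ∈ S, ∃ l : List ℂ, l.length ≤ Δ ∧ (∀ z ∈ l, IsConjugate α z ∨ IsConjugate α z⁻¹) ∧
    x = l.prod

/-- No quotient of two distinct elements of `S` is a root of unity. -/
def QuotientsNotTorsion (S : Finset ℂ) : Prop :=
  ∀ x ∈ S, ∀ y ∈ S, x ≠ y → ∀ m : ℕ, 0 < m → x ^ m ≠ y ^ m

/-- the number `([K : ℚ] κ ^ 2 (1 + log κ)) ^ 7` -/
noncomputable def bound (K : IntermediateField ℚ ℂ) (κ : ℝ) : ℝ :=
  ((finrank ℚ K : ℝ) * (κ ^ 2 * (1 + Real.log κ))) ^ 7

/-- The geometric mean of the function `g` of the embeddings of `L` in `ℂ` is at least `1 + ε`. -/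
def GeometricMeanGe (L : Type) [Field L] [NumberField L] (g : (L →+* ℂ) → ℝ) (ε : ℝ) : Prop :=
  Real.log (1 + ε) ≤ (∑ σ : L →+* ℂ, Real.log (g σ)) / finrank ℚ L

theorem result : ∃ c : ℝ, 0 < c ∧
    ∀ (K : IntermediateField ℚ ℂ) [FiniteDimensional ℚ K] (α : ℂ), IsAlgebraicUnit α →
      ∀ (L : Type) [Field L] [NumberField L] [IsGalois ℚ L] (v : L →+* ℂ),
      (∀ z : ℂ, IsConjugate α z → ∃ y : L, v y = z) → ∀ ε : ℝ, 0 < ε → ε ≤ 1 →
      (∀ (S : Finset ℂ) (Δ : ℕ), Monomials α S Δ → QuotientsNotTorsion S → ∀ (a : ℂ → L) (β : L),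
        (∀ x ∈ S, v (a x) ∈ (K ⊔ QAb : IntermediateField ℚ ℂ)) → β ≠ 0 →
        v β = ∑ x ∈ S, v (a x) * x →
        GeometricMeanGe L (fun σ => ‖σ β‖ ^ 2 / ∑ x ∈ S, ‖σ (a x)‖ ^ 2) ε →
          c / bound K (S.card / ε) ≤ Δ * height α) ∧
      ((∀ n : ℕ, 0 < n → α ^ n ≠ 1) → ∀ (f : L[X]) (y : L), v y = α → f.eval y ≠ 0 →
        (∀ i, v (f.coeff i) ∈ (K ⊔ QAb : IntermediateField ℚ ℂ)) →
        GeometricMeanGe L (fun σ => ‖σ (f.eval y)‖ ^ 2 / ∑ i ∈ f.support, ‖σ (f.coeff i)‖ ^ 2) ε →
          c / bound K (f.support.card / ε) ≤ f.natDegree * height α) := by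
  classical
  obtain ⟨c, hc, h⟩ := Pool.Agent.V1156.RK.few_ms
  refine ⟨c, hc, ?_⟩
  intro K _ α hα L _ _ _ v hconj ε hε hε1
  have hp := minpoly.irreducible hα.1
  have hm := minpoly.monic hα.1
  have hα0 : α ≠ 0 := by
    intro h0
    have h1 := minpoly.aeval ℤ α
    have h2 := hα.2
    rw [h0] at h1 h2
    rw [← Polynomial.coeff_zero_eq_aeval_zero', map_eq_zero_iff _ (algebraMap ℤ ℂ).injective_int] at h1
    rw [h1] at h2
    simp at h2
  have first : ∀ (S : Finset ℂ) (Δ : ℕ), Monomials α S Δ → QuotientsNotTorsion S →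
      ∀ (a : ℂ → L) (β : L), (∀ x ∈ S, v (a x) ∈ (K ⊔ QAb : IntermediateField ℚ ℂ)) → β ≠ 0 →
        v β = ∑ x ∈ S, v (a x) * x →
        GeometricMeanGe L (fun σ => ‖σ β‖ ^ 2 / ∑ x ∈ S, ‖σ (a x)‖ ^ 2) ε →
          c / bound K (S.card / ε) ≤ Δ * height α := by
    intro S Δ hS htor a β haF hβ0 hβ hmean
    have hane : ∃ x ∈ S, a x ≠ 0 := by
      by_contra hcon
      push Not at hcon
      apply hβ0
      apply v.injective
      rw [hβ, map_zero]
      refine Finset.sum_eq_zero fun x hx => ?_
      rw [hcon x hx, map_zero, zero_mul]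
    refine h K (minpoly ℤ α) hp hm hα.2 S Δ hS htor L v.toRatAlgHom hconj a β haF hane hβ ε hε hε1
      (Or.inr ⟨hβ0, hmean.trans (le_of_eq ?_)⟩)
    congr 1
    refine Fintype.sum_equiv (RingHom.equivRatAlgHom L ℂ) _ _ fun σ => ?_
    rfl
  refine ⟨first, ?_⟩
  intro htor f y hy hfy hcoef hmean
  have hinj : ∀ i j : ℕ, α ^ i = α ^ j → i = j := by
    have key : ∀ i j : ℕ, i < j → α ^ i ≠ α ^ j := by
      intro i j hij he
      apply htor (j - i) (by omega)
      have h2 : α ^ i * α ^ (j - i) = α ^ i * 1 := by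
        rw [← pow_add, mul_one, he]
        congr 1
        omega
      exact mul_left_cancel₀ (pow_ne_zero i hα0) h2
    intro i j he
    rcases lt_trichotomy i j with h1 | h1 | h1
    · exact absurd he (key i j h1)
    · exact h1
    · exact absurd he.symm (key j i h1)
  set S : Finset ℂ := f.support.image (fun j => α ^ j) with hS
  have hcard : S.card = f.support.card :=
    Finset.card_image_of_injective _ (fun i j he => hinj i j he)
  -- the exponent of a power
  have hex : ∃ e : ℂ → ℕ, ∀ j : ℕ, e (α ^ j) = j :=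
    ⟨Function.invFun (fun j : ℕ => α ^ j),
      Function.leftInverse_invFun (f := fun j : ℕ => α ^ j) (fun i j hij => hinj i j hij)⟩
  obtain ⟨e, he⟩ := hex
  rw [← hcard]
  have hsumS : ∀ g : ℂ → ℝ, ∑ x ∈ S, g x = ∑ i ∈ f.support, g (α ^ i) := fun g =>
    Finset.sum_image (fun i _ j _ hij => hinj i j hij)
  have hsumC : ∀ g : ℂ → ℂ, ∑ x ∈ S, g x = ∑ i ∈ f.support, g (α ^ i) := fun g =>
    Finset.sum_image (fun i _ j _ hij => hinj i j hij)
  refine first S f.natDegree ?_ ?_ (fun x => f.coeff (e x)) (f.eval y) (fun x _ => hcoef _) hfy ?_ ?_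
  · intro x hx
    obtain ⟨j, hj, rfl⟩ := Finset.mem_image.mp hx
    refine ⟨List.replicate j α, ?_, ?_, by simp⟩
    · rw [List.length_replicate]
      exact le_natDegree_of_mem_supp j hj
    · intro z hz
      rw [List.eq_of_mem_replicate hz]
      exact Or.inl (minpoly.aeval ℤ α)
  · intro x hx y hy hxy m hm0 he
    obtain ⟨i, -, rfl⟩ := Finset.mem_image.mp hx
    obtain ⟨j, -, rfl⟩ := Finset.mem_image.mp hy
    rw [← pow_mul, ← pow_mul] at he
    have h2 := hinj _ _ he
    have h3 : i = j := Nat.eq_of_mul_eq_mul_right hm0 h2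
    exact hxy (by rw [h3])
  · rw [hsumC, Polynomial.eval_eq_sum, Polynomial.sum, map_sum]
    refine Finset.sum_congr rfl fun i _ => ?_
    rw [map_mul, map_pow, hy, he]
  · unfold GeometricMeanGe at hmean ⊢
    refine hmean.trans (le_of_eq ?_)
    congr 1
    refine Finset.sum_congr rfl fun σ _ => ?_
    have h1 : ∑ x ∈ S, ‖σ (f.coeff (e x))‖ ^ 2 = ∑ i ∈ f.support, ‖σ (f.coeff i)‖ ^ 2 := by
      rw [hsumS (fun x => ‖σ (f.coeff (e x))‖ ^ 2)]
      simp only [he]
    simp only [h1]

end Pool.Agent.Results.MP_187c26_nt.RelativeLargeForms
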