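import Mathlib
import Pool.Agent.V1156.RK.FewMs

/-!
# The relative Lehmer problem over `K(μ_∞)` for units with linear forms of small mean square

Let `K` be a number field, `μ_∞` the group of all roots of unity and `E = K(μ_∞)`. There is an
absolute constant `c > 0` with the following properties, for all algebraic units `α` and all
`0 < ε ≤ 1`.

* Let `S` be a set of `k` numbers, each of them a product of at most `Δ` conjugates of `α` over `ℚ` and
  inverses of such conjugates, no quotient of two distinct members of `S` being a root of unity. Let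
  `L` be a Galois number field which contains the conjugates of `α`, and `β = ∑ a_x x ≠ 0` a linear
  combination of the members of `S` with coefficients in `E ∩ L`. If the mean of
  `|σ β| ^ 2 / ∑ |σ a_x| ^ 2` over all embeddings `σ` of `L` in `ℂ` is at most `1 - ε`, then
  `Δ h(α) ≥ c / ([K : ℚ] κ ^ 2 (1 + log κ)) ^ 7`, `κ = k / ε`.
* Let `α` be not a root of unity, `f` a polynomial whose nonzero coefficients are `k` roots of unity,
  `f(α) ≠ 0`. If all conjugates of `f(α)` over `ℚ` lie in the disc `|z| ^ 2 ≤ (1 - ε) k`, then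
  `deg(f) h(α) ≥ c / (κ ^ 2 (1 + log κ)) ^ 7`, `κ = k / ε`.

In the first statement nothing is assumed on the coefficients; they may have any size and any degree
over `ℚ`. In the terms of Rémond's question this is the case `G = 𝔾_m`, `Γ` = the group of roots of
unity, `V = {α}`. If `k`, `1 / ε`, `[K : ℚ]` are bounded and `Δ` (or `deg(f)`) is at most a constant
times `[E(α) : E]`, it is Rémond's inequality for `α`. The case `β = 0` is `RelativeFewTerms`.

Method. If all quotients of two distinct members of `S` have degree at least `N` over `E`, with `N` of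
order `κ ^ 2 (1 + log κ)`, then for all embeddings `σ` of `L` the points `(σ(ρ(x)))_x`, `ρ` in the
Galois group over `E ∩ L`, are spread out so well that the mean square of every linear form at the
normalized points is about the sum of the squares of its coefficients, on the average over `σ`, by an
energy inequality. If some quotient has degree less than `N` over `E`, its height is at least
`c / ([K : ℚ] N) ^ 7`; this follows from the starting hand-in `RelativeLehmer`.
-/

set_option autoImplicit false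

open Polynomial Module

namespace Pool.Agent.Results.MP_187c26_nt.RelativeSmallForms

/-- the field `ℚ(μ_∞) ⊆ ℂ` generated by all roots of unity -/
noncomputable def QAb : IntermediateField ℚ ℂ :=
  IntermediateField.adjoin ℚ {z : ℂ | ∃ n : ℕ, 0 < n ∧ z ^ n = 1}

/-- The absolute logarithmic Weil height of an algebraic integer. -/
noncomputable def height (α : ℂ) : ℝ :=
  Real.log ((minpoly ℤ α).map (Int.castRingHom ℂ)).mahlerMeasure / (minpoly ℤ α).natDegree

/-- `α` is an algebraic unit: an algebraic integer of norm `± 1`. -/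
def IsAlgebraicUnit (α : ℂ) : Prop := IsIntegral ℤ α ∧ |(minpoly ℤ α).coeff 0| = 1

/-- The conjugates of the algebraic integer `α` over `ℚ`. -/
def IsConjugate (α z : ℂ) : Prop := aeval z (minpoly ℤ α) = 0

/-- Every `x` in `S` is a product of at most `Δ` conjugates of `α` over `ℚ`, and inverses of
conjugates. -/
def Monomials (α : ℂ) (S : Finset ℂ) (Δ : ℕ) : Prop :=
  ∀ x ∈ S, ∃ l : List ℂ, l.length ≤ Δ ∧ (∀ z ∈ l, IsConjugate α z ∨ IsConjugate α z⁻¹) ∧
    x = l.prod

/-- No quotient of two distinct elements of `S` is a root of unity. -/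
def QuotientsNotTorsion (S : Finset ℂ) : Prop :=
  ∀ x ∈ S, ∀ y ∈ S, x ≠ y → ∀ m : ℕ, 0 < m → x ^ m ≠ y ^ m

/-- the number `(d κ ^ 2 (1 + log κ)) ^ 7` -/
noncomputable def bound (d : ℕ) (κ : ℝ) : ℝ := ((d : ℝ) * (κ ^ 2 * (1 + Real.log κ))) ^ 7

/-- The mean of the function `g` of the embeddings of `L` in `ℂ` is at most `1 - ε`. -/
def MeanLe (L : Type) [Field L] [NumberField L] (g : (L →+* ℂ) → ℝ) (ε : ℝ) : Prop :=
  (∑ σ : L →+* ℂ, g σ) / finrank ℚ L ≤ 1 - ε

theorem result : ∃ c : ℝ, 0 < c ∧ ∀ α : ℂ, IsAlgebraicUnit α → ∀ ε : ℝ, 0 < ε → ε ≤ 1 →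
      (∀ (K : IntermediateField ℚ ℂ) [FiniteDimensional ℚ K] (L : Type) [Field L] [NumberField L]
        [IsGalois ℚ L] (v : L →+* ℂ), (∀ z : ℂ, IsConjugate α z → ∃ y : L, v y = z) →
        ∀ (S : Finset ℂ) (Δ : ℕ), Monomials α S Δ → QuotientsNotTorsion S → ∀ (a : ℂ → L) (β : L),
        (∀ x ∈ S, v (a x) ∈ (K ⊔ QAb : IntermediateField ℚ ℂ)) → β ≠ 0 →
        v β = ∑ x ∈ S, v (a x) * x →
        MeanLe L (fun σ => ‖σ β‖ ^ 2 / ∑ x ∈ S, ‖σ (a x)‖ ^ 2) ε →
          c / bound (finrank ℚ K) (S.card / ε) ≤ Δ * height α) ∧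
      ((∀ n : ℕ, 0 < n → α ^ n ≠ 1) → ∀ f : ℂ[X], (∀ i ∈ f.support, ∃ n : ℕ, 0 < n ∧ f.coeff i ^ n = 1) →
        f.eval α ≠ 0 → (∀ z : ℂ, IsConjugate (f.eval α) z → ‖z‖ ^ 2 ≤ (1 - ε) * f.support.card) →
          c / bound 1 (f.support.card / ε) ≤ f.natDegree * height α) := by
  classical
  obtain ⟨c, hc, h⟩ := Pool.Agent.V1156.RK.few_ms
  refine ⟨c, hc, ?_⟩
  intro α hα ε hε hε1
  have hp := minpoly.irreducible hα.1
  have hm := minpoly.monic hα.1
  have hα0 : α ≠ 0 := by
    intro h0
    have h1 := minpoly.aeval ℤ α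
    have h2 := hα.2
    rw [h0] at h1 h2
    rw [← Polynomial.coeff_zero_eq_aeval_zero', map_eq_zero_iff _ (algebraMap ℤ ℂ).injective_int] at h1
    rw [h1] at h2
    simp at h2
  have first : ∀ (K : IntermediateField ℚ ℂ) [FiniteDimensional ℚ K] (L : Type) [Field L]
      [NumberField L] [IsGalois ℚ L] (v : L →+* ℂ), (∀ z : ℂ, IsConjugate α z → ∃ y : L, v y = z) →
        ∀ (S : Finset ℂ) (Δ : ℕ), Monomials α S Δ → QuotientsNotTorsion S → ∀ (a : ℂ → L) (β : L),
        (∀ x ∈ S, v (a x) ∈ (K ⊔ QAb : IntermediateField ℚ ℂ)) → β ≠ 0 →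
        v β = ∑ x ∈ S, v (a x) * x →
        MeanLe L (fun σ => ‖σ β‖ ^ 2 / ∑ x ∈ S, ‖σ (a x)‖ ^ 2) ε →
          c / bound (finrank ℚ K) (S.card / ε) ≤ Δ * height α := by
    intro K _ L _ _ _ v hconj S Δ hS htor a β haF hβ0 hβ hmean
    have hane : ∃ x ∈ S, a x ≠ 0 := by
      by_contra hcon
      push Not at hcon
      apply hβ0
      apply v.injective
      rw [hβ, map_zero]
      refine Finset.sum_eq_zero fun x hx => ?_
      rw [hcon x hx, map_zero, zero_mul]
    refine h K (minpoly ℤ α) hp hm hα.2 S Δ hS htor L v.toRatAlgHom hconj a β haF hane hβ ε hε hε1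
      (Or.inl (le_trans (le_of_eq ?_) hmean))
    congr 1
    refine Fintype.sum_equiv (RingHom.equivRatAlgHom L ℂ).symm _ _ fun σ => ?_
    rfl
  refine ⟨first, ?_⟩
  intro htor f hroot hfα hconjf
  have hinj : ∀ i j : ℕ, α ^ i = α ^ j → i = j := by
    have key : ∀ i j : ℕ, i < j → α ^ i ≠ α ^ j := by
      intro i j hij he
      apply htor (j - i) (by omega)
      have h2 : α ^ i * α ^ (j - i) = α ^ i * 1 := by
        rw [← pow_add, mul_one, he]
        congr 1
        omega
      exact mul_left_cancel₀ (pow_ne_zero i hα0) h2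
    intro i j he
    rcases lt_trichotomy i j with h1 | h1 | h1
    · exact absurd he (key i j h1)
    · exact h1
    · exact absurd he.symm (key j i h1)
  set S : Finset ℂ := f.support.image (fun j => α ^ j) with hS
  have hcard : S.card = f.support.card :=
    Finset.card_image_of_injective _ (fun i j he => hinj i j he)
  -- the exponent of a power
  have hex : ∃ e : ℂ → ℕ, ∀ j : ℕ, e (α ^ j) = j :=
    ⟨Function.invFun (fun j : ℕ => α ^ j),
      Function.leftInverse_invFun (f := fun j : ℕ => α ^ j) (fun i j hij => hinj i j hij)⟩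
  obtain ⟨e, he⟩ := hex
  -- the field
  have hαi : IsIntegral ℚ α := hα.1.tower_top
  set T : Finset ℂ := ((minpoly ℤ α).map (Int.castRingHom ℂ)).roots.toFinset ∪
    f.support.image (fun i => f.coeff i) with hT
  obtain ⟨L, hLf, hLnf, hLgal, v, hLT⟩ := Pool.Agent.V1156.RK.exists_field T (by
    intro t ht
    rw [hT, Finset.mem_union] at ht
    rcases ht with h1 | h1
    · rw [Multiset.mem_toFinset, mem_roots (hm.map _).ne_zero, IsRoot.def, eval_map] at h1
      exact IsIntegral.tower_top (R := ℤ) ⟨minpoly ℤ α, hm, h1⟩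
    · obtain ⟨i, hi, rfl⟩ := Finset.mem_image.mp h1
      obtain ⟨n, hn, hn1⟩ := hroot i hi
      exact IsIntegral.of_pow hn (by rw [hn1]; exact isIntegral_one))
  have hLconj : ∀ z : ℂ, IsConjugate α z → ∃ y : L, v y = z := by
    intro z hz
    apply hLT
    rw [hT, Finset.mem_union]
    left
    rw [Multiset.mem_toFinset, mem_roots (hm.map _).ne_zero, IsRoot.def, eval_map]
    exact hz
  have hLc : ∀ i : ℕ, ∃ y : L, v y = f.coeff i := by
    intro i
    by_cases hi : i ∈ f.support
    · apply hLT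
      rw [hT, Finset.mem_union]
      exact Or.inr (Finset.mem_image.mpr ⟨i, hi, rfl⟩)
    · exact ⟨0, by rw [map_zero, Polynomial.notMem_support_iff.mp hi]⟩
  choose b hb using hLc
  obtain ⟨y, hy⟩ := hLconj α (minpoly.aeval ℤ α)
  set β : L := ∑ i ∈ f.support, b i * y ^ i with hβdef
  have hvβ : v β = f.eval α := by
    rw [hβdef, map_sum, Polynomial.eval_eq_sum, Polynomial.sum]
    refine Finset.sum_congr rfl fun i _ => ?_
    rw [map_mul, map_pow, hy, hb]
  have hβ0 : β ≠ 0 := by
    intro h0
    apply hfα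
    rw [← hvβ, h0, map_zero]
  have hb1 : ∀ (σ : L →+* ℂ), ∀ i ∈ f.support, ‖σ (b i)‖ = 1 := by
    intro σ i hi
    obtain ⟨n, hn, hn1⟩ := hroot i hi
    have h1 : b i ^ n = 1 := by
      apply v.toRingHom.injective
      change v (b i ^ n) = v 1
      rw [map_pow, hb, hn1, map_one]
    refine (pow_eq_one_iff_of_nonneg (norm_nonneg _) hn.ne').mp ?_
    rw [← norm_pow, ← map_pow, h1, map_one, norm_one]
  have hsumS : ∀ g : ℂ → ℝ, ∑ x ∈ S, g x = ∑ i ∈ f.support, g (α ^ i) := fun g =>
    Finset.sum_image (fun i _ j _ hij => hinj i j hij)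
  have hsumC : ∀ g : ℂ → ℂ, ∑ x ∈ S, g x = ∑ i ∈ f.support, g (α ^ i) := fun g =>
    Finset.sum_image (fun i _ j _ hij => hinj i j hij)
  have hk0 : (0:ℝ) < f.support.card := by
    have : f.support.Nonempty := by
      rw [Finset.nonempty_iff_ne_empty]
      intro h0
      apply hβ0
      rw [hβdef, h0, Finset.sum_empty]
    exact_mod_cast Finset.card_pos.mpr this
  have hint : IsIntegral ℤ (f.eval α) := by
    rw [Polynomial.eval_eq_sum, Polynomial.sum]
    refine IsIntegral.sum _ fun i hi => ?_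
    obtain ⟨n, hn, hn1⟩ := hroot i hi
    exact (IsIntegral.of_pow hn (by rw [hn1]; exact isIntegral_one)).mul (hα.1.pow i)
  have hbot : finrank ℚ (⊥ : IntermediateField ℚ ℂ) = 1 := IntermediateField.finrank_bot
  have hfin : FiniteDimensional ℚ (⊥ : IntermediateField ℚ ℂ) :=
    Module.finite_of_finrank_pos (by rw [hbot]; exact one_pos)
  have hmain := first ⊥ L (v : L →+* ℂ) hLconj S f.natDegree ?_ ?_ (fun x => b (e x)) β ?_ hβ0 ?_ ?_
  · rw [hbot, hcard] at hmain
    exact hmain
  · intro x hx
    obtain ⟨j, hj, rfl⟩ := Finset.mem_image.mp hx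
    refine ⟨List.replicate j α, ?_, ?_, by simp⟩
    · rw [List.length_replicate]
      exact le_natDegree_of_mem_supp j hj
    · intro z hz
      rw [List.eq_of_mem_replicate hz]
      exact Or.inl (minpoly.aeval ℤ α)
  · intro x hx y hy hxy m hm0 he
    obtain ⟨i, -, rfl⟩ := Finset.mem_image.mp hx
    obtain ⟨j, -, rfl⟩ := Finset.mem_image.mp hy
    rw [← pow_mul, ← pow_mul] at he
    have h2 := hinj _ _ he
    have h3 : i = j := Nat.eq_of_mul_eq_mul_right hm0 h2
    exact hxy (by rw [h3])
  · intro x hx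
    obtain ⟨j, hj, rfl⟩ := Finset.mem_image.mp hx
    obtain ⟨n, hn, hn1⟩ := hroot j hj
    have h1 : (QAb : IntermediateField ℚ ℂ) ≤ ⊥ ⊔ QAb := le_sup_right
    apply h1
    change v (b (e (α ^ j))) ∈ QAb
    rw [he, hb]
    exact IntermediateField.subset_adjoin _ _ ⟨n, hn, hn1⟩
  · rw [hsumC]
    change v β = _
    rw [hvβ, Polynomial.eval_eq_sum, Polynomial.sum]
    refine Finset.sum_congr rfl fun i _ => ?_
    rw [he]
    change _ = v (b i) * α ^ i
    rw [hb]
  · unfold MeanLe
    have hd0 : (0:ℝ) < finrank ℚ L := by exact_mod_cast (finrank_pos : 0 < finrank ℚ L)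
    rw [div_le_iff₀ hd0]
    have hcardE : (Fintype.card (L →+* ℂ) : ℝ) = finrank ℚ L := by
      rw [Fintype.card_congr (RingHom.equivRatAlgHom L ℂ)]
      exact_mod_cast AlgHom.card ℚ L ℂ
    calc ∑ σ : L →+* ℂ, ‖σ β‖ ^ 2 / ∑ x ∈ S, ‖σ (b (e x))‖ ^ 2
        ≤ ∑ _σ : L →+* ℂ, (1 - ε) := by
          refine Finset.sum_le_sum fun σ _ => ?_
          have h1 : ∑ x ∈ S, ‖σ (b (e x))‖ ^ 2 = f.support.card := by
            rw [hsumS (fun x => ‖σ (b (e x))‖ ^ 2)]
            simp only [he]
            rw [Finset.sum_congr rfl (fun i hi => by rw [hb1 σ i hi, one_pow])]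
            simp
          rw [h1, div_le_iff₀ hk0]
          apply hconjf
          have h2 : aeval β (minpoly ℤ (f.eval α)) = 0 := by
            apply v.toRingHom.injective
            change v (aeval β (minpoly ℤ (f.eval α))) = v 0
            rw [Pool.Agent.H388SL.map_aevalZ, hvβ, minpoly.aeval, map_zero]
          change aeval (σ β) (minpoly ℤ (f.eval α)) = 0
          have h3 : aeval (σ β) (minpoly ℤ (f.eval α)) = σ (aeval β (minpoly ℤ (f.eval α))) := by
            rw [Polynomial.aeval_def, Polynomial.aeval_def, Polynomial.hom_eval₂]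
            congr 1
            exact RingHom.ext_int _ _
          rw [h3, h2, map_zero]
      _ = (1 - ε) * finrank ℚ L := by
          rw [Finset.sum_const, Finset.card_univ, nsmul_eq_mul, hcardE]
          ring

end Pool.Agent.Results.MP_187c26_nt.RelativeSmallForms
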